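import Pool.Agent.K9h52.DX.LVE

/-!
# MP_4467b5_nt: criteria for the density hypothesis

The following are equivalent: (a) the density hypothesis; (b) the density hypothesis for the extremal
clusters; (c) the bound of the density hypothesis for the number of the unit segments with large values
of zeta (the analogue of the theorem of Backlund on the Lindelöf hypothesis).
-/

open Complex

namespace Pool.Agent.Results.MP_4467b5_nt.DensityCriteria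

/-- the number of the elements of a set `A` of zeros of zeta, counted with multiplicity -/
noncomputable def count (A : Set ℂ) : ℕ := ∑ᶠ s ∈ A, analyticOrderNatAt riemannZeta s

/-- the zeros of zeta with real part at least `σ` and height in `(a, b]` -/
def zeros (σ a b : ℝ) : Set ℂ := {s : ℂ | riemannZeta s = 0 ∧ σ ≤ s.re ∧ a < s.im ∧ s.im ≤ b}

/-- There is an extremal cluster with edge at `w`:
(i) every segment of height 2 with centre `b`, `|b - Im w| ≤ B`, contains at most `η log T` zeros with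
real part at least `Re w + τ`;
(ii) for every `h` in `[h₀, 1/10]` some disc of radius `h` with centre on the line through `w`, at
distance at most `√h` from `w`, contains at least `c ε h / log(1/(εh))⁴ · log T` zeros;
(iii) for every `δ` in `[h₀, 1/10]` there is a point `z` with `|Re z - Re w| ≤ δ`,
`|Im z - Im w| ≤ 2 √δ` and `|ζ(z)| ≥ T^(ε δ / 8000)`. -/
def Extremal (c ε h₀ τ η B T : ℝ) (w : ℂ) : Prop :=
  (∀ b : ℝ, |b - w.im| ≤ B →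
    (count {s : ℂ | riemannZeta s = 0 ∧ w.re + τ ≤ s.re ∧ |s.im - b| ≤ 1} : ℝ) ≤ η * Real.log T) ∧
  (∀ h : ℝ, h₀ ≤ h → h ≤ 1 / 10 → ∃ b : ℝ, |b - w.im| ≤ Real.sqrt h ∧
    c * (ε * h) / (Real.log (1 / (ε * h))) ^ 4 * Real.log T ≤
      count {s : ℂ | riemannZeta s = 0 ∧ ‖s - ⟨w.re, b⟩‖ ≤ h}) ∧
  (∀ δ : ℝ, h₀ ≤ δ → δ ≤ 1 / 10 → ∃ z : ℂ, |z.re - w.re| ≤ δ ∧ |z.im - w.im| ≤ 2 * Real.sqrt δ ∧
    T ^ (ε / 8000 * δ) ≤ ‖riemannZeta z‖)

/-- the number of the unit segments `[n, n+1]`, `V₁ ≤ n ≤ V₂`, with an extremal cluster of real part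
at least `σ` -/
noncomputable def clusters (c ε h₀ τ η B T σ V₁ V₂ : ℝ) : ℕ :=
  {n : ℕ | V₁ ≤ n ∧ (n : ℝ) ≤ V₂ ∧ ∃ w : ℂ, σ ≤ w.re ∧ (n : ℝ) ≤ w.im ∧ w.im ≤ n + 1 ∧
    Extremal c ε h₀ τ η B T w}.ncard

/-- the density hypothesis -/
def DensityHypothesis : Prop := ∀ ε : ℝ, 0 < ε → ∃ C T₀ : ℝ, 0 < C ∧ ∀ T : ℝ, T₀ ≤ T →
  ∀ σ : ℝ, 1 / 2 ≤ σ → σ ≤ 1 → (count (zeros σ 0 T) : ℝ) ≤ C * T ^ (2 * (1 - σ) + ε)

/-- the density hypothesis for the extremal clusters, for arbitrarily small parameters of our choice -/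
def ClusterDensity (c : ℝ) : Prop := ∀ ε : ℝ, 0 < ε → ε ≤ 1 → ∃ h₀ τ η : ℝ, 0 < h₀ ∧ h₀ ≤ ε ∧
  0 < τ ∧ τ ≤ ε ∧ 0 < η ∧ η ≤ ε ∧ ∃ C T₀ : ℝ, 0 < C ∧ ∀ T : ℝ, T₀ ≤ T →
  ∀ σ : ℝ, 1 / 2 ≤ σ → σ ≤ 1 →
    (clusters c ε h₀ τ η (T ^ (ε / 2)) T σ 0 (2 * T) : ℝ) ≤ C * T ^ (2 * (1 - σ) + ε)

/-- the number of the `n` in `[1, T]` such that `|ζ(s)| ≥ T^ε` for some `s` with `Re s ≥ σ` and
`n ≤ Im s ≤ n + 1` -/
noncomputable def large (ε T σ : ℝ) : ℕ :=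
  {n : ℕ | 1 ≤ n ∧ (n : ℝ) ≤ T ∧ ∃ s : ℂ, σ ≤ s.re ∧ (n : ℝ) ≤ s.im ∧ s.im ≤ n + 1 ∧
    T ^ ε ≤ ‖riemannZeta s‖}.ncard

/-- the Lindelöf hypothesis up to a set of the density of the density hypothesis -/
def LargeValueDensity : Prop := ∀ ε : ℝ, 0 < ε → ∃ C T₀ : ℝ, 0 < C ∧ ∀ T : ℝ, T₀ ≤ T →
  ∀ σ : ℝ, 1 / 2 ≤ σ → σ ≤ 1 → (large ε T σ : ℝ) ≤ C * T ^ (2 * (1 - σ) + ε)

theorem result : ∃ c : ℝ, 0 < c ∧
    List.TFAE [DensityHypothesis, ClusterDensity c, LargeValueDensity] := by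
  refine ⟨Pool.Agent.K9h52.DX.c0 / 64, by have := Pool.Agent.K9h52.DX.c0_pos; positivity, ?_⟩
  have h1 : DensityHypothesis ↔ ClusterDensity (Pool.Agent.K9h52.DX.c0 / 64) :=
    Pool.Agent.K9h52.DX.dhyp_iff
  have h2 : DensityHypothesis ↔ LargeValueDensity := Pool.Agent.K9h52.DX.dhyp_iff_lhyp
  tfae_have 1 ↔ 2 := h1
  tfae_have 1 ↔ 3 := h2
  tfae_finish

end Pool.Agent.Results.MP_4467b5_nt.DensityCriteria
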