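import Pool.Agent.K9h52.DX.Fin3

/-!
# MP_4467b5_nt: the density hypothesis outside extremal clusters

Unconditional upper bound for the number of the zeros of the Riemann zeta function with real part
at least `σ` in a segment of length `H`, by `T^ε H^(2(1-σ))` (`T^ε H^((1-σ)/(2σ-1))` for `σ ≥ 3/4`) and
the number of the extremal clusters: unit segments near which there is a vertical edge such that there
are almost no zeros right of it in a long window, the density of the zeros at the edge is almost linear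
on every scale, and zeta is large at the edge on every scale.
-/

open Complex

namespace Pool.Agent.Results.MP_4467b5_nt.ExtremalClusters

/-- the number of the elements of a set `A` of zeros of zeta, counted with multiplicity -/
noncomputable def count (A : Set ℂ) : ℕ := ∑ᶠ s ∈ A, analyticOrderNatAt riemannZeta s

/-- the zeros of zeta with real part at least `σ` and height in `(a, b]` -/
def zeros (σ a b : ℝ) : Set ℂ := {s : ℂ | riemannZeta s = 0 ∧ σ ≤ s.re ∧ a < s.im ∧ s.im ≤ b}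

/-- There is an extremal cluster with edge at `w`:
(i) every segment of height 2 with centre `b`, `|b - Im w| ≤ B`, contains at most `η log T` zeros with
real part at least `Re w + τ`;
(ii) for every `h` in `[h₀, 1/10]` some disc of radius `h` with centre on the line through `w`, at
distance at most `√h` from `w`, contains at least `c ε h / log(1/(εh))⁴ · log T` zeros;
(iii) for every `δ` in `[h₀, 1/10]` there is a point `z` with `|Re z - Re w| ≤ δ`,
`|Im z - Im w| ≤ 2 √δ` and `|ζ(z)| ≥ T^(ε δ / 8000)`. -/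
def Extremal (c ε h₀ τ η B T : ℝ) (w : ℂ) : Prop :=
  (∀ b : ℝ, |b - w.im| ≤ B →
    (count {s : ℂ | riemannZeta s = 0 ∧ w.re + τ ≤ s.re ∧ |s.im - b| ≤ 1} : ℝ) ≤ η * Real.log T) ∧
  (∀ h : ℝ, h₀ ≤ h → h ≤ 1 / 10 → ∃ b : ℝ, |b - w.im| ≤ Real.sqrt h ∧
    c * (ε * h) / (Real.log (1 / (ε * h))) ^ 4 * Real.log T ≤
      count {s : ℂ | riemannZeta s = 0 ∧ ‖s - ⟨w.re, b⟩‖ ≤ h}) ∧
  (∀ δ : ℝ, h₀ ≤ δ → δ ≤ 1 / 10 → ∃ z : ℂ, |z.re - w.re| ≤ δ ∧ |z.im - w.im| ≤ 2 * Real.sqrt δ ∧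
    T ^ (ε / 8000 * δ) ≤ ‖riemannZeta z‖)

/-- the number of the unit segments `[n, n+1]`, `V₁ ≤ n ≤ V₂`, with an extremal cluster of real part
at least `σ` -/
noncomputable def clusters (c ε h₀ τ η B T σ V₁ V₂ : ℝ) : ℕ :=
  {n : ℕ | V₁ ≤ n ∧ (n : ℝ) ≤ V₂ ∧ ∃ w : ℂ, σ ≤ w.re ∧ (n : ℝ) ≤ w.im ∧ w.im ≤ n + 1 ∧
    Extremal c ε h₀ τ η B T w}.ncard

/-- the exponent: `2(1-σ)` left of `3/4`, `(1-σ)/(2σ-1) ≤ 2(1-σ)` right of it -/
noncomputable def expo (σ : ℝ) : ℝ := if σ < 3 / 4 then 2 * (1 - σ) else (1 - σ) / (2 * σ - 1)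

theorem result : ∃ c : ℝ, 0 < c ∧
    ∀ ε h₀ τ η : ℝ, 0 < ε → ε ≤ 1 → 0 < h₀ → 0 < τ → 0 < η →
      ∃ A C T₀ : ℝ, 0 < A ∧ 0 < C ∧ ∀ T : ℝ, T₀ ≤ T → ∀ B : ℝ, 1 ≤ B → B ≤ T →
      ∀ U H : ℝ, 0 ≤ U → 1 ≤ H → U + H ≤ T → ∀ σ : ℝ, 1 / 2 ≤ σ → σ ≤ 1 →
        (count (zeros σ U (U + H)) : ℝ) ≤ C * (B ^ 2 * T ^ ε * H ^ expo σ) +
          C * (B * Real.log T * clusters c ε h₀ τ η B T (σ - τ) (U - A * B) (U + H + A * B)) :=
  ⟨Pool.Agent.K9h52.DX.c0 / 64, by have := Pool.Agent.K9h52.DX.c0_pos; positivity,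
    fun _ _ _ _ h1 h2 h3 h4 h5 => Pool.Agent.K9h52.DX.main4 h1 h2 h3 h4 h5⟩

end Pool.Agent.Results.MP_4467b5_nt.ExtremalClusters
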